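import Mathlib

namespace Pool.Agent.H.MP_1ef125_al

open CategoryTheory CategoryTheory.Abelian

section ext

variable {R : Type} [Ring R] (H : ModuleCat.{0} R)

def V (N : ModuleCat.{0} R) (t : ℕ) : Prop := ∀ x : Ext.{0} H N t, x = 0

theorem V_shift {N I C : ModuleCat.{0} R} (f : N →ₗ[R] I) (g : I →ₗ[R] C)
    (hf : Function.Injective f) (hg : Function.Surjective g) (hfg : Function.Exact f g)
    (hI : ∀ t, V H I t) (t : ℕ) : V H C t ↔ V H N (t + 1) := by
  let S : ShortComplex (ModuleCat.{0} R) :=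
    ShortComplex.mk (ModuleCat.ofHom f) (ModuleCat.ofHom g) (by
      ext w
      exact hfg.apply_apply_eq_zero w)
  have hS : S.ShortExact := ModuleCat.shortComplex_shortExact S hfg hf hg
  constructor
  · intro h x
    obtain ⟨y, hy⟩ := Ext.covariant_sequence_exact₁ H hS x (hI _ _) (n₀ := t) rfl
    rw [← hy, h y, Ext.zero_comp]
  · intro h x
    obtain ⟨y, hy⟩ := Ext.covariant_sequence_exact₃ H hS x (n₁ := t + 1) rfl (h _)
    rw [← hy, hI _ y, Ext.zero_comp]

theorem V_iso {N N' : ModuleCat.{0} R} (e : N ≃ₗ[R] N') (t : ℕ) (h : V H N t) : V H N' t := by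
  intro x
  have h1 := h (x.comp (Ext.mk₀ (ModuleCat.ofHom e.symm.toLinearMap)) (add_zero t))
  have h2 : x = (x.comp (Ext.mk₀ (ModuleCat.ofHom e.symm.toLinearMap)) (add_zero t)).comp
      (Ext.mk₀ (ModuleCat.ofHom e.toLinearMap)) (add_zero t) := by
    rw [Ext.comp_assoc_of_second_deg_zero, Ext.mk₀_comp_mk₀]
    have : (ModuleCat.ofHom e.symm.toLinearMap ≫ ModuleCat.ofHom e.toLinearMap : N' ⟶ N') = 𝟙 N' := by
      ext w
      simp
    rw [this, Ext.comp_mk₀_id]
  rw [h2, h1, Ext.zero_comp]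

theorem V_zero (N : ModuleCat.{0} R) : V H N 0 ↔ ∀ f : H →ₗ[R] N, f = 0 := by
  constructor
  · intro h f
    have := (Ext.mk₀_eq_zero_iff (ModuleCat.ofHom f)).1 (h _)
    exact congrArg ModuleCat.Hom.hom this
  · intro h x
    obtain ⟨f, rfl⟩ := (Ext.mk₀_bijective _ _).2 x
    rw [Ext.mk₀_eq_zero_iff]
    ext1
    exact h _

theorem V_inj (I : ModuleCat.{0} R) (hI : Module.Injective R I) (h0 : ∀ f : H →ₗ[R] I, f = 0)
    (t : ℕ) : V H I t := by
  cases t with
  | zero => exact (V_zero H I).2 h0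
  | succ t =>
    have : Injective I := Module.injective_object_of_injective_module R I
    intro x
    exact Ext.eq_zero_of_injective x

theorem V_step {I J K : ModuleCat.{0} R} (d : I →ₗ[R] J) (d' : J →ₗ[R] K)
    (h : Function.Exact d d') (hI : ∀ t, V H I t) (t : ℕ) :
    V H (ModuleCat.of R (LinearMap.ker d')) t ↔ V H (ModuleCat.of R (LinearMap.ker d)) (t + 1) := by
  refine V_shift H (N := ModuleCat.of R (LinearMap.ker d)) (C := ModuleCat.of R (LinearMap.ker d'))
    (LinearMap.ker d).subtype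
    (d.codRestrict (LinearMap.ker d') (fun w => h.apply_apply_eq_zero w))
    (Submodule.injective_subtype _) ?_ ?_ hI t
  · rintro ⟨z, hz⟩
    obtain ⟨w, hw⟩ := (h z).1 hz
    exact ⟨w, Subtype.ext hw⟩
  · intro w
    constructor
    · intro hw
      exact ⟨⟨w, congrArg Subtype.val hw⟩, rfl⟩
    · rintro ⟨z, rfl⟩
      exact Subtype.ext z.2

theorem V_chain (I : ℕ → ModuleCat.{0} R) (d : ∀ i, I i →ₗ[R] I (i + 1)) (s : ℕ)
    (hex : ∀ i, i < s → Function.Exact (d i) (d (i + 1))) (hI : ∀ i, i < s → ∀ t, V H (I i) t)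
    (t : ℕ) :
    V H (ModuleCat.of R (LinearMap.ker (d s))) t ↔
      V H (ModuleCat.of R (LinearMap.ker (d 0))) (t + s) := by
  induction s generalizing t with
  | zero => rfl
  | succ s ih =>
    rw [V_step H (d s) (d (s + 1)) (hex s (Nat.lt_succ_self s)) (hI s (Nat.lt_succ_self s)) t,
      ih (fun i hi => hex i (Nat.lt_succ_of_lt hi)) (fun i hi => hI i (Nat.lt_succ_of_lt hi))]
    rw [Nat.add_assoc, Nat.add_comm 1 s]

noncomputable def kerEquiv {N I J : ModuleCat.{0} R} (ε : N →ₗ[R] I) (d : I →ₗ[R] J)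
    (hε : Function.Injective ε) (h : Function.Exact ε d) : N ≃ₗ[R] LinearMap.ker d :=
  LinearEquiv.ofBijective (ε.codRestrict (LinearMap.ker d) (fun w => h.apply_apply_eq_zero w))
    ⟨fun a b hab => hε (congrArg Subtype.val hab), by
      rintro ⟨z, hz⟩
      obtain ⟨w, hw⟩ := (h z).1 hz
      exact ⟨w, Subtype.ext hw⟩⟩

/-- comparison of two injective coresolutions -/
theorem compare (N : ModuleCat.{0} R) (s : ℕ)
    (I : ℕ → ModuleCat.{0} R) (ε : N →ₗ[R] I 0) (d : ∀ i, I i →ₗ[R] I (i + 1))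
    (hε : Function.Injective ε) (h0 : Function.Exact ε (d 0))
    (hex : ∀ i, i < s + 2 → Function.Exact (d i) (d (i + 1)))
    (hI : ∀ i, i < s + 3 → ∀ t, V H (I i) t)
    (J : ℕ → ModuleCat.{0} R) (ε' : N →ₗ[R] J 0) (d' : ∀ i, J i →ₗ[R] J (i + 1))
    (hε' : Function.Injective ε') (h0' : Function.Exact ε' (d' 0))
    (hex' : ∀ i, i < s → Function.Exact (d' i) (d' (i + 1)))
    (hJ : ∀ i t, V H (J i) t) (f : H →ₗ[R] (J (s + 1) ⧸ LinearMap.range (d' s))) : f = 0 := by
  have a1 : V H (ModuleCat.of R (LinearMap.ker (d (s + 2)))) 0 := by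
    rw [V_zero]
    intro g
    have := (V_zero H _).1 (hI (s + 2) (by omega) 0) ((LinearMap.ker (d (s + 2))).subtype ∘ₗ g)
    ext w
    exact LinearMap.congr_fun this w
  have a2 := (V_chain H I d (s + 2) hex (fun i hi => hI i (by omega)) 0).1 a1
  have a3 : V H N (0 + (s + 2)) :=
    V_iso H (N := ModuleCat.of R (LinearMap.ker (d 0))) (kerEquiv ε (d 0) hε h0).symm _ a2
  have a4 : V H (ModuleCat.of R (LinearMap.ker (d' 0))) (2 + s) := by
    have := V_iso H (N' := ModuleCat.of R (LinearMap.ker (d' 0))) (kerEquiv ε' (d' 0) hε' h0') _ a3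
    have e : 0 + (s + 2) = 2 + s := by omega
    rwa [e] at this
  have a5 := (V_chain H J d' s hex' (fun i _ => hJ i) 2).2 a4
  have a6 : V H (ModuleCat.of R (LinearMap.range (d' s))) 1 := by
    refine (V_shift H (N := ModuleCat.of R (LinearMap.ker (d' s)))
      (C := ModuleCat.of R (LinearMap.range (d' s))) (LinearMap.ker (d' s)).subtype
      (d' s).rangeRestrict (Submodule.injective_subtype _) (d' s).surjective_rangeRestrict ?_
      (hJ s) 1).2 a5
    intro w
    constructor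
    · intro hw
      exact ⟨⟨w, congrArg Subtype.val hw⟩, rfl⟩
    · rintro ⟨z, rfl⟩
      exact Subtype.ext z.2
  have a7 : V H (ModuleCat.of R (J (s + 1) ⧸ LinearMap.range (d' s))) 0 :=
    (V_shift H (N := ModuleCat.of R (LinearMap.range (d' s)))
      (C := ModuleCat.of R (J (s + 1) ⧸ LinearMap.range (d' s))) (LinearMap.range (d' s)).subtype
      (LinearMap.range (d' s)).mkQ (Submodule.injective_subtype _) (Submodule.mkQ_surjective _)
      (LinearMap.exact_subtype_mkQ _) (hJ (s + 1)) 0).2 a6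
  exact (V_zero H _).1 a7 f

end ext

end Pool.Agent.H.MP_1ef125_al
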