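import Pool.Agent.H.MP_1ef125_al.A

namespace Pool.Agent.H.MP_1ef125_al

open CategoryTheory CategoryTheory.Abelian

section simples

variable {A : Type} [Ring A]

theorem simple_quot (N : Ideal A) (e : A) (h1 : (1 : A) ∉ N) (he : 1 - e ∈ N)
    (hinv : ∀ a, a ∉ N → ∃ b, b * a * e = e) : IsSimpleModule A (A ⧸ N) := by
  rw [isSimpleModule_iff_isCoatom]
  refine ⟨fun h => h1 (h ▸ Submodule.mem_top), fun P hP => ?_⟩
  obtain ⟨a, haP, haN⟩ := SetLike.exists_of_lt hP
  obtain ⟨b, hb⟩ := hinv a haN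
  rw [Ideal.eq_top_iff_one]
  have e1 : (1 : A) = b * a - (b * a) * (1 - e) + (1 - e) := by
    rw [mul_sub, mul_one, hb]; abel
  rw [e1]
  exact P.add_mem (P.sub_mem (P.smul_mem b haP) (P.smul_mem (b * a) (hP.le he))) (hP.le he)

theorem simple_iso (N : Ideal A) (e : A) (h1 : (1 : A) ∉ N)
    (hinv : ∀ a, a ∉ N → ∃ b, b * a * e = e) (S : Type) [AddCommGroup S] [Module A S]
    [IsSimpleModule A S] (v : S) (hv : v ≠ 0) (hev : e • v = v) : Nonempty (S ≃ₗ[A] A ⧸ N) := by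
  let f := LinearMap.toSpanSingleton A S v
  have hf : Function.Surjective f := IsSimpleModule.toSpanSingleton_surjective A hv
  have e1 := f.quotKerEquivOfSurjective hf
  have hs : IsSimpleModule A (A ⧸ LinearMap.ker f) := IsSimpleModule.congr e1
  have hc := isSimpleModule_iff_isCoatom.1 hs
  have hle : LinearMap.ker f ≤ N := by
    intro a ha
    by_contra hn
    obtain ⟨b, hb⟩ := hinv a hn
    have h2 : a • v = 0 := ha
    apply hv
    rw [← hev, ← hb, mul_smul, hev, mul_smul, h2, smul_zero]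
  have heq : LinearMap.ker f = N := by
    by_contra hne
    have := hc.2 N (lt_of_le_of_ne hle hne)
    exact h1 (this ▸ Submodule.mem_top)
  exact ⟨e1.symm.trans (Submodule.quotEquivOfEq _ _ heq)⟩

theorem inj_prod {X Y : Type} [AddCommGroup X] [Module A X] [AddCommGroup Y] [Module A Y]
    (hX : Module.Injective A X) (hY : Module.Injective A Y) : Module.Injective A (X × Y) := by
  constructor
  intro P Q _ _ _ _ f hf g
  obtain ⟨h1, e1⟩ := hX.out f hf (LinearMap.fst A X Y ∘ₗ g)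
  obtain ⟨h2, e2⟩ := hY.out f hf (LinearMap.snd A X Y ∘ₗ g)
  exact ⟨h1.prod h2, fun x => Prod.ext (e1 x) (e2 x)⟩

end simples

structure Data (k L : Type) [Field k] [Ring L] [Algebra k L] (m : ℕ) where
  x : ℕ → L
  r : ℕ
  hper : x (r + 1) = x 0
  hz : ∀ i, x (i + 1) * x i = 0
  hl : ∀ i a, a * x i = 0 → ∃ b, a = b * x (i + 1)
  hr : ∀ i a, x (i + 1) * a = 0 → ∃ b, a = x i * b
  hM : ∀ i, i < m → ∀ a c, x (i + 1) * a = c * x 0 → ∃ b c', a = x i * b + c' * x 0
  lam : L →ₗ[k] k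
  hlam : ∀ a, (∀ c, lam (a * c) = 0) → a = 0
  J : Ideal L
  hJr : ∀ a c, a ∈ J → a * c ∈ J
  h1 : (1 : L) ∉ J
  hu : ∀ a, a ∉ J → IsUnit a
  hx : ∀ i, x i ∈ J

namespace Data

variable {k L : Type} [Field k] [Ring L] [Algebra k L] {m : ℕ} (D : Data k L m)

abbrev N : Submodule L L := Submodule.span L {D.x 0}
abbrev M : Type := L ⧸ D.N
abbrev X : Type := L × D.M
abbrev A : Type := Module.End L D.X

def o : D.M := D.N.mkQ 1

theorem smul_o (a : L) : a • D.o = D.N.mkQ a := by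
  rw [o, ← map_smul, smul_eq_mul, mul_one]

theorem mk_zero (a : L) : D.N.mkQ a = 0 ↔ ∃ c, a = c * D.x 0 := by
  rw [Submodule.mkQ_apply, Submodule.Quotient.mk_eq_zero, Submodule.mem_span_singleton]
  exact ⟨fun ⟨c, h⟩ => ⟨c, h.symm⟩, fun ⟨c, h⟩ => ⟨c, h.symm⟩⟩

theorem x0_o : D.x 0 • D.o = 0 := by
  rw [smul_o, mk_zero]; exact ⟨1, (one_mul _).symm⟩

theorem decomp (v : D.X) : ∃ a b : L, v = a • ((1, 0) : D.X) + b • ((0, D.o) : D.X) := by
  obtain ⟨a, w⟩ := v
  obtain ⟨b, rfl⟩ := D.N.mkQ_surjective w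
  refine ⟨a, b, ?_⟩
  ext
  · simp
  · simp [smul_o]

theorem homExt {Y : Type} [AddCommGroup Y] [Module L Y] {f g : D.X →ₗ[L] Y}
    (h1 : f (1, 0) = g (1, 0)) (h2 : f (0, D.o) = g (0, D.o)) : f = g := by
  refine LinearMap.ext fun v => ?_
  obtain ⟨a, b, rfl⟩ := D.decomp v
  simp only [map_add, map_smul, h1, h2]

def fromM {Y : Type} [AddCommGroup Y] [Module L Y] (y : Y) (hy : D.x 0 • y = 0) : D.M →ₗ[L] Y :=
  D.N.liftQ (LinearMap.toSpanSingleton L Y y) (by
    rw [Submodule.span_le]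
    rintro _ rfl
    exact hy)

theorem fromM_mk {Y : Type} [AddCommGroup Y] [Module L Y] (y : Y) (hy : D.x 0 • y = 0) (a : L) :
    D.fromM y hy (D.N.mkQ a) = a • y := rfl

theorem x0r : D.x 0 • D.x D.r = 0 := by
  rw [← D.hper]; exact D.hz _

theorem sep (v : D.X) (hv : v ≠ 0) : ∃ ψ : D.X →ₗ[L] L, ψ v ≠ 0 := by
  by_cases h : v.1 = 0
  · refine ⟨D.fromM _ D.x0r ∘ₗ LinearMap.snd L L D.M, ?_⟩
    obtain ⟨b, hb⟩ := D.N.mkQ_surjective v.2
    intro h0
    apply hv
    have h2 : D.fromM _ D.x0r v.2 = 0 := h0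
    rw [← hb, fromM_mk] at h2
    obtain ⟨c, hc⟩ := D.hl _ _ h2
    rw [D.hper] at hc
    refine Prod.ext h ?_
    rw [← hb]
    exact (D.mk_zero b).2 ⟨c, hc⟩
  · exact ⟨LinearMap.fst L L D.M, h⟩

theorem toJ (ψ : D.X →ₗ[L] L) : ψ (0, D.o) ∈ D.J := by
  have h : D.x (D.r + 1) * ψ (0, D.o) = 0 := by
    rw [D.hper, ← smul_eq_mul, ← map_smul]
    have : D.x 0 • ((0, D.o) : D.X) = 0 := by
      ext
      · simp
      · simp [x0_o]
    rw [this, map_zero]
  obtain ⟨b, hb⟩ := D.hr _ _ h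
  rw [hb]
  exact D.hJr _ _ (D.hx _)

def lm (a : L) : D.X →ₗ[D.A] D.X where
  toFun v := a • v
  map_add' := smul_add a
  map_smul' f v := (f.map_smul a v).symm

def ev (v : D.X) : D.A →ₗ[D.A] D.X := LinearMap.toSpanSingleton D.A D.X v

def eps : D.A →ₗ[D.A] D.X × D.X := (D.ev (1, 0)).prod (D.ev (0, D.o))

theorem eps_inj : Function.Injective D.eps := by
  intro f g h
  exact D.homExt (congrArg Prod.fst h) (congrArg Prod.snd h)

theorem finA [FiniteDimensional k L] : FiniteDimensional k D.A := by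
  let f : D.A →ₗ[k] D.X × D.X :=
    { toFun := D.eps
      map_add' := D.eps.map_add
      map_smul' := fun c a => rfl }
  exact Module.Finite.of_injective f D.eps_inj

def up (ψ : D.X →ₗ[L] L) : D.A := LinearMap.inl L L D.M ∘ₗ ψ

def e1 : D.A := D.up (LinearMap.fst L L D.M)
def e2 : D.A := LinearMap.inr L L D.M ∘ₗ LinearMap.snd L L D.M

theorem projX : Module.Projective D.A D.X := by
  let i : D.X →ₗ[D.A] D.A :=
    { toFun := fun v => LinearMap.toSpanSingleton L D.X v ∘ₗ LinearMap.fst L L D.M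
      map_add' := by
        intro a b
        apply D.homExt <;> simp
      map_smul' := by
        intro f v
        apply D.homExt <;> simp }
  refine Module.Projective.of_split i (D.ev (1, 0)) ?_
  refine LinearMap.ext fun v => ?_
  change (1 : L) • v = v
  exact one_smul L v

theorem hlam' [FiniteDimensional k L] (a : L) (h : ∀ c, D.lam (c * a) = 0) : a = 0 := by
  let B : L →ₗ[k] L →ₗ[k] k := (LinearMap.mul k L).compr₂ D.lam
  have h1 : Function.Injective B := by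
    rw [injective_iff_map_eq_zero]
    intro u hu
    exact D.hlam u (fun c => LinearMap.congr_fun hu c)
  have h2 : Function.Surjective B :=
    (LinearMap.injective_iff_surjective_of_finrank_eq_finrank
      (Subspace.dual_finrank_eq (K := k) (V := L)).symm).1 h1
  have h3 := LinearMap.flip_injective_iff₁.2 h2
  apply h3
  ext c
  simpa [B] using h c

def pair : D.X →ₗ[k] (D.X →ₗ[L] L) →ₗ[k] k :=
  LinearMap.mk₂ k (fun v ψ => D.lam (ψ v)) (fun a b ψ => by rw [map_add, map_add])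
    (fun c v ψ => by rw [LinearMap.map_smul_of_tower, map_smul])
    (fun v a b => by rw [LinearMap.add_apply, map_add])
    (fun c v ψ => by rw [LinearMap.smul_apply, map_smul])

theorem pair_inj (v : D.X) (h : ∀ ψ : D.X →ₗ[L] L, D.lam (ψ v) = 0) : v = 0 := by
  by_contra hv
  obtain ⟨ψ, hψ⟩ := D.sep v hv
  exact hψ (D.hlam _ fun c => h (LinearMap.toSpanSingleton L L c ∘ₗ ψ))

theorem pair_surj [FiniteDimensional k L] : Function.Surjective D.pair := by
  rw [← LinearMap.flip_injective_iff₁, injective_iff_map_eq_zero]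
  intro ψ hψ
  refine LinearMap.ext fun v => D.hlam' _ fun c => ?_
  have := LinearMap.congr_fun hψ (c • v)
  rw [← smul_eq_mul, ← map_smul]
  exact this

theorem injX [FiniteDimensional k L] : Module.Injective D.A D.X := by
  apply Module.Baer.injective
  intro I g
  let g' : (I.restrictScalars k) →ₗ[k] k :=
    { toFun := fun r => D.lam (g ⟨r.1, r.2⟩).1
      map_add' := by
        intro a b
        rw [← map_add, ← Prod.fst_add, ← map_add]; rfl
      map_smul' := by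
        intro c a
        have e : (⟨(c • a).1, (c • a).2⟩ : I) = (algebraMap k D.A c) • (⟨a.1, a.2⟩ : I) := by
          apply Subtype.ext
          change c • a.1 = (algebraMap k D.A c) * a.1
          exact Algebra.smul_def c a.1
        rw [e, g.map_smul, algebraMap_smul, Prod.smul_fst, map_smul]
        rfl }
  obtain ⟨mu, hmu⟩ := LinearMap.exists_extend g'
  let up' : (D.X →ₗ[L] L) →ₗ[k] D.A :=
    { toFun := D.up
      map_add' := fun a b => LinearMap.comp_add _ _ _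
      map_smul' := fun c a => by
        refine LinearMap.ext fun v => ?_
        simp [up] }
  obtain ⟨v, hv⟩ := D.pair_surj (mu ∘ₗ up')
  refine ⟨D.ev v, fun a ha => ?_⟩
  rw [← sub_eq_zero]
  apply D.pair_inj
  intro ψ
  have e1 : D.lam (ψ (D.ev v a)) = mu (D.up ψ * a) := LinearMap.congr_fun hv (ψ ∘ₗ a)
  have hm : D.up ψ * a ∈ I := I.mul_mem_left _ ha
  have e2 : mu (D.up ψ * a) = D.lam (g ⟨_, hm⟩).1 := LinearMap.congr_fun hmu ⟨_, hm⟩
  have e3 : g ⟨_, hm⟩ = D.up ψ • g ⟨a, ha⟩ := by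
    rw [← g.map_smul]; rfl
  rw [map_sub, map_sub, e1, e2, e3]
  exact sub_self _

theorem tors_zero {H I : Type} [AddCommGroup H] [Module D.A H] [AddCommGroup I] [Module D.A I]
    (hH : ∀ h : H, D.e1 • h = 0) (hI : Module.Projective D.A I) (g : H →ₗ[D.A] I) : g = 0 := by
  refine LinearMap.ext fun h => ?_
  by_contra hne
  obtain ⟨f, hf⟩ := Module.Projective.exists_dual_ne_zero D.A hne
  obtain ⟨v, hv⟩ : ∃ v, f (g h) v ≠ 0 := by
    by_contra hh
    push Not at hh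
    exact hf (LinearMap.ext hh)
  obtain ⟨ψ, hψ⟩ := D.sep _ hv
  have e1 : D.e1 * D.up ψ = D.up ψ := rfl
  have e2 : D.up ψ • h = 0 := by rw [← e1, mul_smul, hH]
  have e3 : D.up ψ * f (g h) = 0 := by
    rw [← smul_eq_mul, ← map_smul, ← map_smul, e2, map_zero, map_zero]
  exact hψ (congrArg Prod.fst (LinearMap.congr_fun e3 v))

def N1 : Ideal D.A where
  carrier := {f | (f (1, 0)).1 ∈ D.J}
  add_mem' := fun ha hb => D.J.add_mem ha hb
  zero_mem' := D.J.zero_mem
  smul_mem' := by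
    intro b f hf
    obtain ⟨u, w, h⟩ := D.decomp (f (1, 0))
    have hu : u ∈ D.J := by
      have h2 : (f (1, 0)).1 ∈ D.J := hf
      rw [h] at h2
      simpa using h2
    change (b (f (1, 0))).1 ∈ D.J
    rw [h, map_add, map_smul, map_smul]
    exact D.J.add_mem (D.hJr _ _ hu) (D.J.mul_mem_left _ (D.toJ (LinearMap.fst L L D.M ∘ₗ b)))

theorem smul_mem_map (u : L) (hu : u ∈ D.J) (w : D.M) : u • w ∈ Submodule.map D.N.mkQ D.J := by
  obtain ⟨c, rfl⟩ := D.N.mkQ_surjective w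
  exact ⟨u * c, D.hJr _ _ hu, rfl⟩

theorem o_not_mem (u : L) (h : D.N.mkQ u ∈ Submodule.map D.N.mkQ D.J) : u ∈ D.J := by
  obtain ⟨c, hc, e⟩ := h
  obtain ⟨t, ht⟩ := (D.mk_zero (u - c)).1 (by rw [map_sub, e, sub_self])
  have : u = t * D.x 0 + c := by rw [← ht]; abel
  rw [this]
  exact D.J.add_mem (D.J.mul_mem_left _ (D.hx 0)) hc

def N2 : Ideal D.A where
  carrier := {f | (f (0, D.o)).2 ∈ Submodule.map D.N.mkQ D.J}
  add_mem' := fun ha hb => Submodule.add_mem (Submodule.map D.N.mkQ D.J) ha hb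
  zero_mem' := Submodule.zero_mem (Submodule.map D.N.mkQ D.J)
  smul_mem' := by
    intro b f hf
    obtain ⟨u, w, h⟩ := D.decomp (f (0, D.o))
    have hu : u ∈ D.J := by
      have h2 : (f (0, D.o)).1 ∈ D.J := D.toJ (LinearMap.fst L L D.M ∘ₗ f)
      rw [h] at h2
      simpa using h2
    have hw : w ∈ D.J := by
      have h2 : (f (0, D.o)).2 ∈ Submodule.map D.N.mkQ D.J := hf
      rw [h] at h2
      apply D.o_not_mem
      simpa [smul_o] using h2
    change (b (f (0, D.o))).2 ∈ Submodule.map D.N.mkQ D.J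
    rw [h, map_add, map_smul, map_smul]
    exact Submodule.add_mem _ (D.smul_mem_map _ hu _) (D.smul_mem_map _ hw _)

theorem one_N1 : (1 : D.A) ∉ D.N1 := D.h1
theorem one_N2 : (1 : D.A) ∉ D.N2 := fun h => D.h1 (D.o_not_mem 1 h)

theorem sub_N1 : 1 - D.e1 ∈ D.N1 := by
  change (1 : L) - 1 ∈ D.J
  rw [sub_self]; exact D.J.zero_mem

theorem sub_N2 : 1 - D.e2 ∈ D.N2 := by
  change D.o - D.o ∈ Submodule.map D.N.mkQ D.J
  rw [sub_self]; exact Submodule.zero_mem _

theorem inv_N1 (a : D.A) (ha : a ∉ D.N1) : ∃ b, b * a * D.e1 = D.e1 := by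
  obtain ⟨w, hw⟩ := (D.hu _ ha).exists_right_inv
  refine ⟨D.up (LinearMap.toSpanSingleton L L w ∘ₗ LinearMap.fst L L D.M), ?_⟩
  apply D.homExt
  · exact Prod.ext hw rfl
  · change D.up _ (a (0, 0)) = (0, 0)
    rw [show ((0, 0) : D.X) = 0 from rfl, map_zero, map_zero]

theorem inv_N2 [FiniteDimensional k L] (a : D.A) (ha : a ∉ D.N2) : ∃ b, b * a * D.e2 = D.e2 := by
  let ψ : D.M →ₗ[L] D.M := LinearMap.snd L L D.M ∘ₗ a ∘ₗ LinearMap.inr L L D.M
  obtain ⟨u, hu⟩ := D.N.mkQ_surjective (ψ D.o)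
  have hJ : u ∉ D.J := fun h => ha ⟨u, h, hu⟩
  obtain ⟨w, hw⟩ := (D.hu _ hJ).exists_left_inv
  have hs : Function.Surjective ψ := by
    intro z
    obtain ⟨c, rfl⟩ := D.N.mkQ_surjective z
    refine ⟨(c * w) • D.o, ?_⟩
    rw [map_smul, ← hu, ← map_smul, smul_eq_mul, mul_assoc, hw, mul_one]
  have hi : Function.Injective ψ :=
    (LinearMap.injective_iff_surjective (f := ψ.restrictScalars k)).2 hs
  let E := LinearEquiv.ofBijective ψ ⟨hi, hs⟩
  refine ⟨LinearMap.inr L L D.M ∘ₗ E.symm.toLinearMap ∘ₗ LinearMap.snd L L D.M, ?_⟩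
  refine LinearMap.ext fun v => ?_
  change ((0 : L), E.symm (E v.2)) = (0, v.2)
  rw [E.symm_apply_apply]

def S : Fin 2 → ModuleCat.{0} D.A :=
  ![ModuleCat.of D.A (D.A ⧸ D.N1), ModuleCat.of D.A (D.A ⧸ D.N2)]

theorem S_simple [FiniteDimensional k L] (i : Fin 2) : IsSimpleModule D.A (D.S i) := by
  fin_cases i
  · exact simple_quot D.N1 D.e1 D.one_N1 D.sub_N1 D.inv_N1
  · exact simple_quot D.N2 D.e2 D.one_N2 D.sub_N2 D.inv_N2

theorem not_iso (f : (D.A ⧸ D.N1) ≃ₗ[D.A] (D.A ⧸ D.N2)) : False := by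
  have h1 : ∀ z : D.A ⧸ D.N2, D.e1 • z = 0 := by
    intro z
    obtain ⟨c, rfl⟩ := D.N2.mkQ_surjective z
    rw [← map_smul, Submodule.mkQ_apply, Submodule.Quotient.mk_eq_zero]
    exact Submodule.zero_mem (Submodule.map D.N.mkQ D.J)
  have h2 : D.e1 • D.N1.mkQ 1 = 0 := by
    apply f.injective
    rw [map_smul, h1, map_zero]
  rw [← map_smul, Submodule.mkQ_apply, Submodule.Quotient.mk_eq_zero] at h2
  exact D.h1 h2

theorem S_inj (i j : Fin 2) (h : Nonempty (D.S i ≃ₗ[D.A] D.S j)) : i = j := by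
  obtain ⟨f⟩ := h
  fin_cases i <;> fin_cases j
  · rfl
  · exact (D.not_iso f).elim
  · exact (D.not_iso f.symm).elim
  · rfl

theorem S_all [FiniteDimensional k L] (T : ModuleCat.{0} D.A) (hT : IsSimpleModule D.A T) :
    ∃ i, Nonempty (T ≃ₗ[D.A] D.S i) := by
  have := IsSimpleModule.nontrivial D.A T
  obtain ⟨v, hv⟩ := exists_ne (0 : T)
  have e11 : D.e1 * D.e1 = D.e1 := rfl
  have e22 : D.e2 * D.e2 = D.e2 := rfl
  have e12 : D.e1 + D.e2 = 1 := LinearMap.ext fun v => Prod.ext (add_zero _) (zero_add _)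
  by_cases h : D.e1 • v = 0
  · have h2 : D.e2 • v = v := by
      have := add_smul D.e1 D.e2 v
      rw [e12, one_smul, h, zero_add] at this
      exact this.symm
    exact ⟨1, simple_iso D.N2 D.e2 D.one_N2 D.inv_N2 T v hv h2⟩
  · exact ⟨0, simple_iso D.N1 D.e1 D.one_N1 D.inv_N1 T _ h (by rw [← mul_smul, e11])⟩

def JJ : ℕ → ModuleCat.{0} D.A
  | 0 => ModuleCat.of D.A (D.X × D.X)
  | _ + 1 => ModuleCat.of D.A D.X

def dd : ∀ i, D.JJ i →ₗ[D.A] D.JJ (i + 1)
  | 0 => D.lm (D.x 0) ∘ₗ LinearMap.snd D.A D.X D.X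
  | i + 1 => D.lm (D.x (i + 1))

theorem mem_range (i : ℕ) (z : D.X) :
    (∃ y, D.dd i y = z) ↔ ∃ y : D.X, D.x i • y = z := by
  cases i with
  | zero => exact ⟨fun ⟨y, h⟩ => ⟨y.2, h⟩, fun ⟨y, h⟩ => ⟨(0, y), h⟩⟩
  | succ i => exact Iff.rfl

def Ex (i : ℕ) : Prop := ∀ z : D.X, D.x (i + 1) • z = 0 → ∃ y : D.X, D.x i • y = z

theorem exact_of (i : ℕ) (h : D.Ex i) : Function.Exact (D.dd i) (D.dd (i + 1)) := by
  intro z
  constructor
  · intro hz
    exact (D.mem_range i z).2 (h z hz)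
  · intro hz
    obtain ⟨y, hy⟩ := (D.mem_range i z).1 hz
    rw [← hy]
    change D.x (i + 1) • D.x i • y = 0
    rw [← mul_smul, D.hz, zero_smul]

theorem Ex_lt (i : ℕ) (hi : i < m) : D.Ex i := by
  rintro ⟨z, w⟩ h
  obtain ⟨a, rfl⟩ := D.N.mkQ_surjective w
  obtain ⟨y, hy⟩ := D.hr i z (congrArg Prod.fst h)
  have h2 : D.N.mkQ (D.x (i + 1) * a) = 0 := congrArg Prod.snd h
  obtain ⟨c, hc⟩ := (D.mk_zero _).1 h2
  obtain ⟨b, c', hb⟩ := D.hM i hi a c hc
  refine ⟨(y, D.N.mkQ b), Prod.ext hy.symm ?_⟩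
  change D.N.mkQ (D.x i * b) = D.N.mkQ a
  rw [hb, map_add, (D.mk_zero (c' * D.x 0)).2 ⟨c', rfl⟩, add_zero]

theorem not_Ex : ¬ D.Ex D.r := by
  intro h
  obtain ⟨y, hy⟩ := h (0, D.o) (by
    rw [D.hper]
    exact Prod.ext (smul_zero _) D.x0_o)
  have h2 : D.x D.r • y.2 = D.N.mkQ 1 := congrArg Prod.snd hy
  exact D.h1 (D.o_not_mem 1 (h2 ▸ D.smul_mem_map _ (D.hx _) _))

theorem exact0 : Function.Exact D.eps (D.dd 0) := by
  rintro ⟨a, b⟩
  constructor
  · intro h
    refine ⟨(LinearMap.toSpanSingleton L D.X a).coprod (D.fromM b h), Prod.ext ?_ ?_⟩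
    · change (1 : L) • a + D.fromM b h 0 = a
      rw [map_zero, one_smul, add_zero]
    · change (0 : L) • a + (1 : L) • b = b
      rw [zero_smul, one_smul, zero_add]
  · rintro ⟨f, hf⟩
    have h2 : f (0, D.o) = b := congrArg Prod.snd hf
    change D.x 0 • b = 0
    rw [← h2, ← map_smul]
    have : D.x 0 • ((0, D.o) : D.X) = 0 := Prod.ext (smul_zero _) D.x0_o
    rw [this, map_zero]

theorem JJ_pi [FiniteDimensional k L] (j : ℕ) :
    Module.Projective D.A (D.JJ j) ∧ Module.Injective D.A (D.JJ j) := by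
  have h1 := D.projX
  cases j with
  | zero => exact ⟨(inferInstance : Module.Projective D.A (D.X × D.X)), inj_prod D.injX D.injX⟩
  | succ j => exact ⟨h1, D.injX⟩

end Data

def PP (A : Type) [Ring A] (m : ℕ) : Prop :=
  ∃ (I : ℕ → ModuleCat.{0} A) (ε : A →ₗ[A] I 0) (d : ∀ i, I i →ₗ[A] I (i + 1)),
    Function.Injective ε ∧
    (1 < m → Function.Exact ε (d 0)) ∧
    (∀ i, i + 2 < m → Function.Exact (d i) (d (i + 1))) ∧
    ∀ j, j < m → Module.Projective A (I j) ∧ Module.Injective A (I j)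

namespace Data

variable {k L : Type} [Field k] [Ring L] [Algebra k L] [FiniteDimensional k L] {m : ℕ}
  (D : Data k L m)

theorem PP_pos (t : ℕ) (ht : t ≤ m + 2) : PP D.A t :=
  ⟨D.JJ, D.eps, D.dd, D.eps_inj, fun _ => D.exact0,
    fun i hi => D.exact_of i (D.Ex_lt i (by omega)), fun j _ => D.JJ_pi j⟩

theorem PP_neg : ¬ ∀ t, PP D.A t := by
  classical
  intro h
  have hex : ∃ s, ¬ D.Ex s := ⟨_, D.not_Ex⟩
  set s := Nat.find hex with hs
  have h1 : ¬ D.Ex s := Nat.find_spec hex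
  have h2 : ∀ i, i < s → D.Ex i := fun i hi => not_not.1 (Nat.find_min hex hi)
  obtain ⟨I, ε, d, a1, a2, a3, a4⟩ := h (s + 4)
  let Q : Submodule D.A (D.JJ (s + 1)) := LinearMap.range (D.dd s)
  let H : Submodule D.A (D.JJ (s + 1) ⧸ Q) := (LinearMap.ker (D.dd (s + 1))).map Q.mkQ
  have hH : ∀ z : H, D.e1 • z = 0 := by
    rintro ⟨_, z, hz, rfl⟩
    apply Subtype.ext
    change D.e1 • Q.mkQ z = 0
    rw [← map_smul, Submodule.mkQ_apply, Submodule.Quotient.mk_eq_zero]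
    have hz' : D.x (s + 1) • (show D.X from z) = 0 := hz
    obtain ⟨y, hy⟩ := D.hr s _ (congrArg Prod.fst hz')
    exact (D.mem_range s _).2 ⟨(y, 0), Prod.ext hy.symm (smul_zero _)⟩
  have hV : ∀ T : ModuleCat.{0} D.A, Module.Projective D.A T ∧ Module.Injective D.A T →
      ∀ t, V (ModuleCat.of D.A H) T t :=
    fun T hT => V_inj _ T hT.2 (fun g => D.tors_zero hH hT.1 g)
  have key := compare (ModuleCat.of D.A H) (ModuleCat.of D.A D.A) s I ε d a1 (a2 (by omega))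
    (fun i hi => a3 i (by omega)) (fun i hi => hV _ (a4 i (by omega)))
    D.JJ D.eps D.dd D.eps_inj D.exact0 (fun i hi => D.exact_of i (h2 i hi))
    (fun i => hV _ (D.JJ_pi i)) H.subtype
  apply h1
  intro z hz
  have h3 : Q.mkQ z = 0 := LinearMap.congr_fun key ⟨Q.mkQ z, z, hz, rfl⟩
  rw [Submodule.mkQ_apply, Submodule.Quotient.mk_eq_zero] at h3
  exact (D.mem_range s z).1 h3

end Data

end Pool.Agent.H.MP_1ef125_al
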