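import Pool.Agent.H.MP_1ef125_al.B

namespace Pool.Agent.H.MP_1ef125_al

structure QData (k E : Type) [Field k] [Ring E] [Algebra k E] (m : ℕ) where
  al : E ≃ₐ[k] E
  W : E
  hW : al W = W
  hWn : ∀ a, W * a = al (al a) * W
  w : ℕ → E
  r : ℕ
  hper : w (r + 1) = w 0
  hw : ∀ i, w (i + 1) = - al (w i)
  hww : ∀ i, w (i + 1) * w i = W
  hM : ∀ i, i < m → ∀ a, w (i + 1) * a - al a * w 0 = 0 → ∃ b, a = w i * b - al b * w 0
  lam : E →ₗ[k] k
  hlam : ∀ a, (∀ c, lam (a * c) = 0) → a = 0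
  F : ℕ → Submodule k E
  hF0 : ∀ a, a ∈ F 0
  hFmul : ∀ i j a b, a ∈ F i → b ∈ F j → a * b ∈ F (i + j)
  hFal : ∀ i a, a ∈ F i → al a ∈ F i
  top : ℕ
  hFtop : ∀ a, a ∈ F top → a = 0
  hw1 : ∀ i, w i ∈ F 1
  h1 : (1 : E) ∉ F 1
  hdec : ∀ a, ∃ c : k, a - c • (1 : E) ∈ F 1

namespace QData

variable {k E : Type} [Field k] [Ring E] [Algebra k E] {m : ℕ} (D : QData k E m)

def Q (_ : QData k E m) : Type := E × E

instance : AddCommGroup D.Q := inferInstanceAs (AddCommGroup (E × E))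
instance : Module k D.Q := inferInstanceAs (Module k (E × E))
instance [FiniteDimensional k E] : FiniteDimensional k D.Q :=
  inferInstanceAs (FiniteDimensional k (E × E))

def mk' (a b : E) : D.Q := (a, b)

instance : Mul D.Q := ⟨fun u v => D.mk' (u.1 * v.1 - u.2 * D.al v.2 * D.W) (u.1 * v.2 + u.2 * D.al v.1)⟩
instance : One D.Q := ⟨D.mk' 1 0⟩

theorem ext' {u v : D.Q} (h1 : u.1 = v.1) (h2 : u.2 = v.2) : u = v := Prod.ext h1 h2

theorem mul1 (u v : D.Q) : (u * v).1 = u.1 * v.1 - u.2 * D.al v.2 * D.W := rfl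
theorem mul2 (u v : D.Q) : (u * v).2 = u.1 * v.2 + u.2 * D.al v.1 := rfl
theorem add1 (u v : D.Q) : (u + v).1 = u.1 + v.1 := rfl
theorem add2 (u v : D.Q) : (u + v).2 = u.2 + v.2 := rfl
theorem sub1 (u v : D.Q) : (u - v).1 = u.1 - v.1 := rfl
theorem smul1 (c : k) (v : D.Q) : (c • v).1 = c • v.1 := rfl
theorem smul2 (c : k) (v : D.Q) : (c • v).2 = c • v.2 := rfl
theorem zero1 : (0 : D.Q).1 = 0 := rfl
theorem zero2 : (0 : D.Q).2 = 0 := rfl
theorem one1 : (1 : D.Q).1 = 1 := rfl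
theorem one2 : (1 : D.Q).2 = 0 := rfl
theorem mk1 (a b : E) : (D.mk' a b).1 = a := rfl
theorem mk2 (a b : E) : (D.mk' a b).2 = b := rfl

instance : Ring D.Q :=
  { (inferInstance : AddCommGroup D.Q) with
    mul := (· * ·)
    one := 1
    mul_assoc := fun a b c => by
      apply D.ext'
      · simp only [mul1, mul2, map_add, map_mul, map_sub, D.hW, mul_sub, sub_mul, mul_add, add_mul,
          mul_assoc, D.hWn c.1]
        abel
      · simp only [mul1, mul2, map_add, map_mul, map_sub, D.hW, mul_sub, sub_mul, mul_add, add_mul,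
          mul_assoc, D.hWn c.2]
        abel
    left_distrib := fun a b c => by
      apply D.ext' <;> simp only [mul1, mul2, add1, add2, map_add, mul_add, add_mul] <;> abel
    right_distrib := fun a b c => by
      apply D.ext' <;> simp only [mul1, mul2, add1, add2, map_add, mul_add, add_mul] <;> abel
    zero_mul := fun a => by
      apply D.ext' <;> simp [mul1, mul2, zero1, zero2]
    mul_zero := fun a => by
      apply D.ext' <;> simp [mul1, mul2, zero1, zero2]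
    one_mul := fun a => by
      apply D.ext' <;> simp [mul1, mul2, one1, one2]
    mul_one := fun a => by
      apply D.ext' <;> simp [mul1, mul2, one1, one2] }

instance : Algebra k D.Q := Algebra.ofModule
  (fun c u v => by
    apply D.ext' <;> simp [mul1, mul2, smul1, smul2, smul_sub])
  (fun c u v => by
    apply D.ext' <;> simp [mul1, mul2, smul1, smul2, smul_sub])

theorem FL (i : ℕ) (a b : E) (h : b ∈ D.F i) : a * b ∈ D.F i := by
  have := D.hFmul 0 i a b (D.hF0 a) h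
  rwa [zero_add] at this

theorem FR (i : ℕ) (a b : E) (h : a ∈ D.F i) : a * b ∈ D.F i := D.hFmul i 0 a b h (D.hF0 b)

theorem W1 : D.W ∈ D.F 1 := by
  rw [← D.hww 0]; exact D.FL _ _ _ (D.hw1 0)

def JQ : Ideal D.Q where
  carrier := {z | z.1 ∈ D.F 1}
  add_mem' := fun ha hb => (D.F 1).add_mem ha hb
  zero_mem' := (D.F 1).zero_mem
  smul_mem' := fun c z hz => (D.F 1).sub_mem (D.FL _ _ _ hz) (D.FL _ _ _ D.W1)

theorem nil (v : D.Q) (hv : v.1 ∈ D.F 1) : IsNilpotent v := by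
  have h1 : (v * v).1 ∈ D.F 1 ∧ (v * v).2 ∈ D.F 1 :=
    ⟨(D.F 1).sub_mem (D.FL _ _ _ hv) (D.FL _ _ _ D.W1),
      (D.F 1).add_mem (D.FR _ _ _ hv) (D.FL _ _ _ (D.hFal _ _ hv))⟩
  have h2 : ∀ n, ((v * v) ^ n).1 ∈ D.F n ∧ ((v * v) ^ n).2 ∈ D.F n := by
    intro n
    induction n with
    | zero => exact ⟨D.hF0 _, D.hF0 _⟩
    | succ n ih =>
      rw [pow_succ]
      exact ⟨(D.F _).sub_mem (D.hFmul _ _ _ _ ih.1 h1.1)
          (D.FR _ _ _ (D.hFmul _ _ _ _ ih.2 (D.hFal _ _ h1.2))),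
        (D.F _).add_mem (D.hFmul _ _ _ _ ih.1 h1.2) (D.hFmul _ _ _ _ ih.2 (D.hFal _ _ h1.1))⟩
  refine ⟨2 * D.top, ?_⟩
  rw [pow_mul, pow_two]
  exact D.ext' (D.hFtop _ (h2 _).1) (D.hFtop _ (h2 _).2)

theorem unit_of (z : D.Q) (hz : z.1 ∉ D.F 1) : IsUnit z := by
  obtain ⟨c, hc⟩ := D.hdec z.1
  have hc0 : c ≠ 0 := by
    rintro rfl
    rw [zero_smul, sub_zero] at hc
    exact hz hc
  have h1 : IsNilpotent (1 - c⁻¹ • z) := by
    apply D.nil
    have e : (1 - c⁻¹ • z).1 = (-c⁻¹) • (z.1 - c • (1 : E)) := by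
      rw [sub1, smul1, one1, smul_sub, smul_smul, neg_mul, inv_mul_cancel₀ hc0, neg_smul, neg_smul,
        one_smul]
      abel
    rw [e]
    exact (D.F 1).smul_mem _ hc
  have h2 := h1.isUnit_one_sub
  rw [sub_sub_cancel, Algebra.smul_def] at h2
  have h3 : IsUnit (algebraMap k D.Q c) := (IsUnit.mk0 _ hc0).map _
  have h4 := h3.mul h2
  rwa [← mul_assoc, ← map_mul, mul_inv_cancel₀ hc0, map_one, one_mul] at h4

theorem alw (i : ℕ) : D.al (D.w i) = - D.w (i + 1) := by rw [D.hw, neg_neg]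

def toData : Data k D.Q m where
  x i := D.mk' (D.w i) 1
  r := D.r
  hper := by rw [D.hper]
  hz i := by
    apply D.ext'
    · simp [mul1, mk1, mk2, zero1, D.hww]
    · simp [mul2, mk1, mk2, zero2, D.alw]
  hl i a h := by
    have h2 : a.1 * 1 + a.2 * D.al (D.w i) = 0 := congrArg Prod.snd h
    refine ⟨D.mk' a.2 0, D.ext' ?_ ?_⟩
    · rw [D.alw, mul_one, mul_neg, add_neg_eq_zero] at h2
      simp [mul1, mk1, mk2, h2]
    · simp [mul2, mk1, mk2]
  hr i a h := by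
    have h2 : D.w (i + 1) * a.2 + 1 * D.al a.1 = 0 := congrArg Prod.snd h
    refine ⟨D.mk' (D.al.symm a.2) 0, D.ext' ?_ ?_⟩
    · apply D.al.injective
      rw [one_mul, add_eq_zero_iff_neg_eq] at h2
      simp [mul1, mk1, mk2, D.alw, h2]
    · simp [mul2, mk1, mk2]
  hM i hi a c h := by
    have h1 : D.w (i + 1) * a.1 - 1 * D.al a.2 * D.W = c.1 * D.w 0 - c.2 * D.al 1 * D.W :=
      congrArg Prod.fst h
    have h2 : D.w (i + 1) * a.2 + 1 * D.al a.1 = c.1 * 1 + c.2 * D.al (D.w 0) :=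
      congrArg Prod.snd h
    simp only [one_mul, mul_one, map_one, D.alw] at h1 h2
    obtain ⟨b, hb⟩ := D.hM i hi (a.1 - a.2 * D.w 0) (by
      have e : D.w (i + 1) * (a.1 - a.2 * D.w 0) - D.al (a.1 - a.2 * D.w 0) * D.w 0 =
          (D.w (i + 1) * a.1 - D.al a.2 * D.W) - (D.w (i + 1) * a.2 + D.al a.1) * D.w 0 := by
        rw [map_sub, map_mul, D.alw, ← D.hww 0]
        noncomm_ring
      rw [e, h1, h2, ← D.hww 0]
      noncomm_ring)
    refine ⟨D.mk' b 0, D.mk' (a.2 - D.al b) 0, D.ext' ?_ ?_⟩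
    · have e : a.1 = D.w i * b - D.al b * D.w 0 + a.2 * D.w 0 := by rw [← hb]; abel
      simp only [add1, mul1, mk1, mk2, map_zero, mul_zero, zero_mul, sub_zero]
      rw [e]
      noncomm_ring
    · simp [add2, mul2, mk1, mk2]
  lam := D.lam ∘ₗ LinearMap.snd k E E
  hlam a h := by
    have h2 : a.2 = 0 := D.hlam _ fun c => by
      have h3 : D.lam (a.1 * 0 + a.2 * D.al (D.al.symm c)) = 0 := h (D.mk' (D.al.symm c) 0)
      simpa using h3
    have h1 : a.1 = 0 := D.hlam _ fun c => by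
      have h3 : D.lam (a.1 * c + a.2 * D.al 0) = 0 := h (D.mk' 0 c)
      simpa using h3
    exact D.ext' h1 h2
  J := D.JQ
  hJr a c ha := (D.F 1).sub_mem (D.FR _ _ _ ha) (D.FL _ _ _ D.W1)
  h1 := D.h1
  hu := D.unit_of
  hx := D.hw1

end QData

end Pool.Agent.H.MP_1ef125_al
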