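import Pool.Agent.H.MP_1ef125_al.D

namespace Pool.Agent.H.MP_1ef125_al

open Finset

variable {t : ℕ}

def eta (s : ℕ) (j : I t) : ℚ := (-1) ^ s * (if j = (s : I t) then -1 else 1)

theorem eta_sq (s : ℕ) (j : I t) : eta s j * eta s j = 1 := by
  unfold eta
  have : ((-1 : ℚ)) ^ s * (-1) ^ s = 1 := by rw [← mul_pow]; simp
  split_ifs <;> linear_combination this

theorem eta_succ (s : ℕ) (j : I t) : eta (s + 1) (j + 1) = - eta s j := by
  simp only [eta, Nat.cast_add, Nat.cast_one, add_left_inj, pow_succ]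
  ring

theorem eta_zero (d : ℕ) (j : I t) : eta 0 j = (-1) ^ d * eta d (j + (d : I t)) := by
  have : ((-1 : ℚ)) ^ d * (-1) ^ d = 1 := by rw [← mul_pow]; simp
  simp only [eta, Nat.cast_zero, add_eq_right, pow_zero, one_mul, ← mul_assoc, this]

noncomputable def w (s : ℕ) : E t := ∑ j, eta s j • u (e j)
noncomputable def W : E t := -∑ j : I t, u (e j + e j)

theorem sum_sh {M : Type} [AddCommMonoid M] (s : I t) (f : I t → M) :
    ∑ j, f (j + s) = ∑ j, f j := Equiv.sum_comp (Equiv.addRight s) f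

theorem w_succ (s : ℕ) : (w (s + 1) : E t) = - al (w s) := by
  rw [w, w, map_sum, ← sum_neg_distrib, ← sum_sh 1]
  refine sum_congr rfl fun j _ => ?_
  rw [map_smul, al_u, sh_e, eta_succ, neg_smul]

theorem al_W : al (W : E t) = W := by
  rw [W, map_neg, map_sum, ← sum_sh 1 (fun j => u (e j + e j))]
  simp only [al_u, sh_add, sh_e]

theorem W_u (a : I t → ℕ) : (W : E t) * u a = al (al (u a)) * W := by
  rw [W, al_u, al_u, neg_mul, mul_neg, sum_mul, mul_sum, sh_sh]
  congr 1
  simp only [u_mul, deg_add, deg_e, deg_sh, sh_add, sh_e, chi_addl, chi_addr, chi_sq, one_smul,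
    Nat.cast_add, Nat.cast_one]
  rw [sum_sh (deg a : I t) (fun j => u (sh (1 + 1) a + (e j + e j)))]
  simp only [add_comm]

theorem W_norm (x : E t) : W * x = al (al x) * W := by
  induction x using E_ind with
  | h0 => simp
  | ha x x' h h' => simp only [map_add, mul_add, add_mul, h, h']
  | hs c x h => simp only [map_smul, smul_mul_assoc, mul_smul_comm, h]
  | hu a _ => exact W_u a

theorem antisym_sum {M : Type} [AddCommGroup M] [Module ℚ M] (f : I t → I t → M)
    (h : ∀ i j, i ≠ j → f i j + f j i = 0) : ∑ i, ∑ j, f i j = ∑ i, f i i := by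
  have h1 : ∑ i, ∑ j, f i j + ∑ i, ∑ j, f i j = ∑ i, f i i + ∑ i, f i i := by
    nth_rewrite 2 [sum_comm]
    rw [← sum_add_distrib, ← sum_add_distrib]
    refine sum_congr rfl fun i _ => ?_
    rw [← sum_add_distrib, sum_eq_single i]
    · intro j _ hj; exact h i j hj.symm
    · simp
  rw [← two_smul ℚ, ← two_smul ℚ] at h1
  exact smul_right_injective M (two_ne_zero) h1

theorem w_w (s : ℕ) : (w (s + 1) : E t) * w s = W := by
  have h1 : (w (s + 1) : E t) * w s = ∑ i : I t, ∑ j : I t,
      (-(eta (s + 1) i * eta (s + 1) j * chi (e i) (e j))) • u (e i + e j) := by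
    rw [w, w, sum_mul]
    refine sum_congr rfl fun i _ => ?_
    rw [mul_sum, ← sum_sh 1 (fun j => (-(eta (s + 1) i * eta (s + 1) j * chi (e i) (e j))) •
      u (e i + e j))]
    refine sum_congr rfl fun j _ => ?_
    rw [smul_mul_smul_comm, u_mul, deg_e, Nat.cast_one, sh_e, smul_smul, eta_succ]
    congr 1
    ring
  rw [h1, antisym_sum, W, ← sum_neg_distrib]
  · refine sum_congr rfl fun i _ => ?_
    rw [eta_sq, chi_e_same, mul_one, neg_smul, one_smul]
  · intro i j hij
    rw [add_comm (e j) (e i), ← add_smul]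
    have h2 := chi_ee hij
    have h3 := chi_sq (e j) (e i)
    have h4 : chi (e i) (e j) = - chi (e j) (e i) := by
      linear_combination chi (e j) (e i) * h2 - chi (e i) (e j) * h3
    rw [h4]
    have : -(eta (s + 1) i * eta (s + 1) j * -chi (e j) (e i)) +
      -(eta (s + 1) j * eta (s + 1) i * chi (e j) (e i)) = 0 := by ring
    rw [this, zero_smul]

theorem w_per : (w (4 * t + 5 + 1) : E t) = w 0 := by
  unfold w
  refine sum_congr rfl fun j _ => ?_
  congr 1
  have h : ((4 * t + 5 + 1 : ℕ) : I t) = 0 := by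
    rw [ZMod.natCast_eq_zero_iff]
    exact ⟨2, by ring⟩
  have h2 : ((-1 : ℚ)) ^ (4 * t + 5 + 1) = 1 := Even.neg_one_pow ⟨2 * t + 3, by ring⟩
  rw [eta, eta, h, h2, Nat.cast_zero, pow_zero]

def top (t : ℕ) : Box t := fun _ => ⟨LL t - 1, by unfold LL; omega⟩

theorem lam_nd (z : E t) (h : ∀ c, co (top t) (z * c) = 0) : z = 0 := by
  refine co_ext z fun a => ?_
  let c : I t → ℕ := vl (top t) - vl a
  have hc : vl a + c = vl (top t) := by
    funext j
    have := (a j).2
    simp only [c, vl, top, Pi.add_apply, Pi.sub_apply]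
    omega
  let b := sh (-(deg (vl a) : I t)) c
  have key : co (top t) ∘ₗ LinearMap.mulRight ℚ (u b) = chi (vl a) c • co a := by
    refine lext fun a' _ => ?_
    simp only [LinearMap.comp_apply, LinearMap.mulRight_apply, u_mul, map_smul, co_u,
      LinearMap.smul_apply]
    by_cases h1 : a' = vl a
    · subst h1
      simp only [b, sh_sh, add_neg_cancel, sh_zero, hc, if_true]
    · rw [if_neg h1, if_neg, smul_zero, smul_zero]
      intro h2
      apply h1
      have h3 : deg a' = deg (vl a) := by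
        have h4 := congrArg deg h2
        rw [← hc, deg_add, deg_add, deg_sh, deg_sh] at h4
        omega
      rw [h3, sh_sh, add_neg_cancel, sh_zero, ← hc] at h2
      exact add_right_cancel h2
  have h5 : co (top t) (z * u b) = chi (vl a) c * co a z := LinearMap.congr_fun key z
  rw [h] at h5
  have h6 := chi_sq (vl a) c
  linear_combination (-chi (vl a) c) * h5 - co a z * h6

noncomputable def F (j : ℕ) : Submodule ℚ (E t) := Submodule.span ℚ (u '' {a | j ≤ deg a})

theorem u_F {j : ℕ} {a : I t → ℕ} (h : j ≤ deg a) : u a ∈ F j :=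
  Submodule.subset_span ⟨a, h, rfl⟩

theorem F_zero (z : E t) : z ∈ F 0 :=
  E_ind (P := fun z => z ∈ F 0) (fun _ _ => u_F (Nat.zero_le _)) (Submodule.zero_mem _)
    (fun _ _ => Submodule.add_mem _) (fun c _ => Submodule.smul_mem _ c) z

theorem F_mul (i j : ℕ) (x y : E t) (hx : x ∈ F i) (hy : y ∈ F j) : x * y ∈ F (i + j) := by
  have h := Submodule.mul_mem_mul hx hy
  rw [F, F, Submodule.span_mul_span] at h
  refine Submodule.span_le.2 ?_ h
  rintro _ ⟨_, ⟨a, ha, rfl⟩, _, ⟨b, hb, rfl⟩, rfl⟩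
  change u a * u b ∈ F (i + j)
  rw [u_mul]
  refine Submodule.smul_mem _ _ (u_F ?_)
  rw [deg_add, deg_sh]
  exact Nat.add_le_add ha hb

theorem F_le {j : ℕ} {P : Submodule ℚ (E t)} (h : ∀ a, j ≤ deg a → u a ∈ P) : F j ≤ P := by
  refine Submodule.span_le.2 ?_
  rintro _ ⟨a, ha, rfl⟩
  exact h a ha

theorem F_al (i : ℕ) (x : E t) (hx : x ∈ F i) : al x ∈ F i :=
  F_le (P := (F i).comap (T 1)) (fun a ha => by
    rw [Submodule.mem_comap, T_u]
    exact u_F (by rwa [deg_sh])) hx

theorem F_top (x : E t) (hx : x ∈ F ((2 * t + 3) * LL t)) : x = 0 := by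
  refine (Submodule.mem_bot ℚ).1 (F_le (P := ⊥) (fun a ha => ?_) hx)
  rw [u_out]
  · exact Submodule.zero_mem _
  · intro h
    have h1 : deg a < ∑ _j : I t, LL t := sum_lt_sum_of_nonempty univ_nonempty fun j _ => h j
    rw [sum_const, card_univ, ZMod.card, smul_eq_mul] at h1
    omega

theorem w_F (s : ℕ) : (w s : E t) ∈ F 1 :=
  Submodule.sum_mem _ fun j _ => Submodule.smul_mem _ _ (u_F (deg_e j).ge)

theorem one_F : (1 : E t) ∉ F 1 := by
  intro h
  let z : Box t := fun _ => ⟨0, by unfold LL; omega⟩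
  have h1 := F_le (P := LinearMap.ker (co z)) (fun a ha => by
    rw [LinearMap.mem_ker, co_u, if_neg]
    rintro rfl
    have : deg (vl z) = 0 := deg_z
    omega) h
  rw [LinearMap.mem_ker, one_def, co_u, if_pos (show (0 : I t → ℕ) = vl z from rfl)] at h1
  exact one_ne_zero h1

theorem F_dec (z : E t) : ∃ c : ℚ, z - c • (1 : E t) ∈ F 1 := by
  induction z using E_ind with
  | h0 => exact ⟨0, by simp⟩
  | ha x y h h' =>
    obtain ⟨c, hc⟩ := h
    obtain ⟨c', hc'⟩ := h'
    refine ⟨c + c', ?_⟩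
    have := Submodule.add_mem _ hc hc'
    rwa [show x + y - (c + c') • (1 : E t) = x - c • 1 + (y - c' • 1) by rw [add_smul]; abel]
  | hs c x h =>
    obtain ⟨c', hc'⟩ := h
    refine ⟨c * c', ?_⟩
    have := Submodule.smul_mem _ c hc'
    rwa [smul_sub, smul_smul] at this
  | hu a _ =>
    by_cases h : deg a = 0
    · have : a = 0 := by
        funext j
        exact (sum_eq_zero_iff.1 h) j (mem_univ j)
      subst this
      exact ⟨1, by rw [one_smul, one_def, sub_self]; exact Submodule.zero_mem _⟩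
    · exact ⟨0, by rw [zero_smul, sub_zero]; exact u_F (by omega)⟩

end Pool.Agent.H.MP_1ef125_al
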