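import Pool.Agent.H.MP_1ef125_al.F

namespace Pool.Agent.H.MP_1ef125_al

open Finset

variable {t : ℕ}

def cf (p q : I t → ℚ) (j : I t) (n : ℕ) : ℚ := p j - (-1) ^ n * q j

def dc (p q : I t → ℚ) (b : I t → ℕ) (j : I t) : ℚ := cf p q j (b j) * chi (e j) b

def hc (p q : I t → ℚ) (b : I t → ℕ) (j : I t) : ℚ :=
  if b j = 0 then 0 else cf p q j (b j - 1) * chi (e j) (b - e j)

noncomputable def Dp (p q : I t → ℚ) (b : I t → ℕ) : E t := ∑ j, dc p q b j • u (b + e j)
noncomputable def Hp (p q : I t → ℚ) (b : I t → ℕ) : E t := ∑ j, hc p q b j • u (b - e j)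

def kap (p q : I t → ℚ) (b : I t → ℕ) (j : I t) : ℚ :=
  (if b j = 0 then 0 else cf p q j (b j - 1) ^ 2) + (if b j + 1 < LL t then cf p q j (b j) ^ 2 else 0)

theorem Dp_out (p q : I t → ℚ) {b : I t → ℕ} (h : ¬ inb b) : Dp p q b = 0 :=
  sum_eq_zero fun j _ => by
    rw [u_out, smul_zero]
    exact fun h' => h fun i => lt_of_le_of_lt (Nat.le_add_right _ _) (h' i)

theorem split_e {b : I t → ℕ} {j : I t} (h : b j ≠ 0) : ∃ c, b = c + e j := by
  refine ⟨b - e j, funext fun i => ?_⟩
  by_cases hi : i = j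
  · subst hi
    simp only [Pi.add_apply, Pi.sub_apply, e_same]
    omega
  · simp [e_ne hi]

theorem inb_add {b : I t → ℕ} (h : inb b) (i : I t) : inb (b + e i) ↔ b i + 1 < LL t := by
  constructor
  · intro h'
    simpa [e_same] using h' i
  · intro h' j
    by_cases hj : j = i
    · subst hj; simpa [e_same] using h'
    · simpa [e_ne hj] using h j

open Classical in
theorem term (p q : I t → ℚ) {b : I t → ℕ} (hb : inb b) (i j : I t) :
    hc p q b j • dc p q (b - e j) i • u (b - e j + e i) +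
      dc p q b i • (if inb (b + e i) then hc p q (b + e i) j • u (b + e i - e j) else 0) =
      if j = i then kap p q b i • u b else 0 := by
  by_cases h0 : b j = 0
  · by_cases hij : j = i
    · subst hij
      have hs := chi_sq (e j) b
      simp only [hc, dc, kap, h0, if_true, zero_smul, zero_add, add_tsub_cancel_right, Pi.add_apply,
        e_same, one_ne_zero, if_false, inb_add hb, Nat.sub_self]
      split_ifs
      · rw [smul_smul]
        congr 1
        linear_combination cf p q j 0 ^ 2 * hs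
      · simp
    · have h1 : (b + e i) j = 0 := by simp [h0, e_ne hij]
      simp [hc, h0, h1, hij]
  · obtain ⟨c, rfl⟩ := split_e h0
    have e1 : c + e j + e i - e j = c + e i := by rw [add_right_comm, add_tsub_cancel_right]
    by_cases hij : j = i
    · subst hij
      have hs := chi_sq (e j) c
      have hs' := chi_sq (e j) (c + e j)
      simp only [hc, dc, kap, add_tsub_cancel_right, Pi.add_apply, e_same, inb_add hb,
        Nat.add_eq_zero_iff, one_ne_zero, and_false, if_false, if_true, smul_smul]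
      split_ifs
      · rw [smul_smul, ← add_smul]
        congr 1
        linear_combination cf p q j (c j) ^ 2 * hs + cf p q j (c j + 1) ^ 2 * hs'
      · rw [smul_zero, add_zero, add_zero]
        congr 1
        linear_combination cf p q j (c j) ^ 2 * hs
    · have hij' : i ≠ j := fun h => hij h.symm
      have h2 := chi_ee hij
      have h3 := chi_sq (e i) (e j)
      have h4 : chi (e j) (e i) = - chi (e i) (e j) := by
        linear_combination chi (e i) (e j) * h2 - chi (e j) (e i) * h3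
      simp only [hc, dc, add_tsub_cancel_right, Pi.add_apply, e_same, e_ne hij, e_ne hij', e1,
        Nat.add_eq_zero_iff, one_ne_zero, and_false, if_false, smul_smul, hij, add_zero, chi_addr, h4]
      split_ifs with h5
      · rw [smul_smul, ← add_smul]
        have : cf p q j (c j) * chi (e j) c * (cf p q i (c i) * chi (e i) c) +
          cf p q i (c i) * (chi (e i) c * chi (e i) (e j)) *
            (cf p q j (c j) * (chi (e j) c * -chi (e i) (e j))) = 0 := by
          linear_combination (-(cf p q j (c j) * chi (e j) c * (cf p q i (c i) * chi (e i) c))) * h3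
        rw [this, zero_smul]
      · rw [u_out, smul_zero, smul_zero, add_zero]
        intro h6
        apply h5
        rw [inb_add hb]
        simpa [e_same, e_ne hij'] using h6 i

noncomputable def D1 (s : ℕ) : E t →ₗ[ℚ] E t := lift fun b => Dp (eta s) (eta (deg b)) b
noncomputable def D0 (s : ℕ) : E t →ₗ[ℚ] E t := lift fun b => Dp (eta s) (eta (deg b + 1)) b
noncomputable def H1 (s : ℕ) : E t →ₗ[ℚ] E t := lift fun b => Hp (eta s) (eta (deg b)) b
noncomputable def H0 (s : ℕ) : E t →ₗ[ℚ] E t := lift fun b => Hp (eta s) (eta (deg b - 1)) b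
def kk (s : ℕ) (b : I t → ℕ) : ℚ := ∑ j, kap (eta s) (eta (deg b)) b j
noncomputable def Pi' (s : ℕ) : E t →ₗ[ℚ] E t := lift fun b => kk s b • u b

theorem D1_u (s : ℕ) (b : I t → ℕ) : D1 s (u b) = Dp (eta s) (eta (deg b)) b :=
  lift_u _ (fun _ h => Dp_out _ _ h) b
theorem D0_u (s : ℕ) (b : I t → ℕ) : D0 s (u b) = Dp (eta s) (eta (deg b + 1)) b :=
  lift_u _ (fun _ h => Dp_out _ _ h) b

open Classical in
theorem homot (s : ℕ) : (D0 s ∘ₗ H1 s + H0 s ∘ₗ D1 s : E t →ₗ[ℚ] E t) = Pi' s := by
  refine lext fun b hb => ?_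
  have a1 : D0 s (H1 s (u b)) = ∑ j, ∑ i, hc (eta s) (eta (deg b)) b j •
      dc (eta s) (eta (deg b)) (b - e j) i • u (b - e j + e i) := by
    rw [H1, lift_in _ hb, Hp, map_sum]
    refine sum_congr rfl fun j _ => ?_
    rw [map_smul, D0_u, ← smul_sum]
    by_cases h0 : b j = 0
    · simp [hc, h0]
    · obtain ⟨c, rfl⟩ := split_e h0
      rw [add_tsub_cancel_right, deg_add, deg_e, Dp]
  have a2 : H0 s (D1 s (u b)) = ∑ i, ∑ j, dc (eta s) (eta (deg b)) b i •
      (if inb (b + e i) then hc (eta s) (eta (deg b)) (b + e i) j • u (b + e i - e j) else 0) := by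
    rw [D1_u, Dp, map_sum]
    refine sum_congr rfl fun i _ => ?_
    rw [map_smul, ← smul_sum]
    by_cases h : inb (b + e i)
    · simp only [h, if_true]
      rw [H0, lift_in _ h, deg_add, deg_e, Nat.add_sub_cancel, Hp]
    · simp only [h, if_false, u_out h, map_zero, sum_const_zero]
  rw [LinearMap.add_apply, LinearMap.comp_apply, LinearMap.comp_apply, a1, a2, sum_comm,
    ← sum_add_distrib, Pi', lift_in _ hb, kk, sum_smul]
  refine sum_congr rfl fun i _ => ?_
  rw [← sum_add_distrib, sum_congr rfl fun j _ => term (eta s) (eta (deg b)) hb i j]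
  simp

theorem eta_inj {s s' : ℕ} (h : (eta s : I t → ℚ) = eta s') :
    (s : I t) = (s' : I t) ∧ ((-1 : ℚ)) ^ s = (-1) ^ s' := by
  obtain ⟨j, hj⟩ : ∃ j : I t, j ∉ ({(s : I t), (s' : I t)} : Finset (I t)) := by
    by_contra hh
    push Not at hh
    have h1 : (univ : Finset (I t)) ⊆ {(s : I t), (s' : I t)} := fun j _ => hh j
    have h2 := card_le_card h1
    have h3 := card_le_two (a := (s : I t)) (b := (s' : I t))
    rw [card_univ, ZMod.card] at h2
    omega
  simp only [mem_insert, mem_singleton, not_or] at hj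
  have h1 := congrFun h j
  simp only [eta, hj.1, hj.2, if_false, mul_one] at h1
  refine ⟨?_, h1⟩
  have h2 := congrFun h (s : I t)
  by_contra hne
  simp only [eta, if_true, hne, if_false, h1] at h2
  have h3 : ((-1 : ℚ)) ^ s' ≠ 0 := pow_ne_zero _ (by norm_num)
  apply h3
  linear_combination (-1 / 2 : ℚ) * h2

theorem kap_nonneg (p q : I t → ℚ) (b : I t → ℕ) (j : I t) : 0 ≤ kap p q b j := by
  unfold kap
  split_ifs <;> positivity

theorem kap_zero {p q : I t → ℚ} {b : I t → ℕ} {j : I t} (hp : p j * p j = 1) (hb : b j < LL t)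
    (h : kap p q b j = 0) : p j = q j ∧ (b j = 0 ∨ b j + 1 = LL t) := by
  unfold kap at h
  by_cases h0 : b j = 0
  · have h1 : b j + 1 < LL t := by rw [h0]; unfold LL; omega
    rw [if_pos h0, if_pos h1, zero_add, h0, sq_eq_zero_iff, cf] at h
    exact ⟨by linear_combination h, Or.inl h0⟩
  · obtain ⟨n, hn⟩ := Nat.exists_eq_succ_of_ne_zero h0
    rw [if_neg h0, hn] at h
    simp only [Nat.succ_eq_add_one, Nat.add_sub_cancel] at h hn
    by_cases h1 : n + 1 + 1 < LL t
    · rw [if_pos h1] at h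
      have h2 : cf p q j n = 0 := by nlinarith [sq_nonneg (cf p q j n), sq_nonneg (cf p q j (n + 1))]
      have h3 : cf p q j (n + 1) = 0 := by
        nlinarith [sq_nonneg (cf p q j n), sq_nonneg (cf p q j (n + 1))]
      rw [cf] at h2 h3
      rw [pow_succ] at h3
      have h4 : p j = 0 := by linear_combination (h2 + h3) / 2
      rw [h4, mul_zero] at hp
      exact absurd hp zero_ne_one
    · rw [if_neg h1, add_zero, sq_eq_zero_iff, cf] at h
      have h2 : n = 2 * (2 * t + 2) := by unfold LL at h1 hb; omega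
      rw [h2, pow_mul] at h
      refine ⟨by simpa [sub_eq_zero] using h, Or.inr ?_⟩
      unfold LL
      omega

theorem kk_ne (s : ℕ) (h1 : 1 ≤ s) (h2 : s < 2 * t + 3) {b : I t → ℕ} (hb : inb b) :
    kk s b ≠ 0 := by
  intro h
  have h3 := (sum_eq_zero_iff_of_nonneg fun j _ => kap_nonneg _ _ b j).1 h
  have h4 := fun j => kap_zero (eta_sq s j) (hb j) (h3 j (mem_univ j))
  obtain ⟨h5, h6⟩ := eta_inj (funext fun j => (h4 j).1)
  let c : ℕ := ∑ j : I t, if b j = 0 then 0 else 1
  have hc1 : c ≤ 2 * t + 3 := by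
    have : c ≤ ∑ _j : I t, 1 := sum_le_sum fun j _ => by split_ifs <;> omega
    rwa [sum_const, card_univ, ZMod.card, smul_eq_mul, mul_one] at this
  have hc2 : deg b + c = LL t * c := by
    rw [deg, ← sum_add_distrib, mul_sum]
    refine sum_congr rfl fun j _ => ?_
    have := (h4 j).2
    split_ifs <;> omega
  have h7 : (2 * t + 3) ∣ s + c := by
    rw [← ZMod.natCast_eq_zero_iff, Nat.cast_add, h5, ← Nat.cast_add, hc2, ZMod.natCast_eq_zero_iff]
    exact ⟨2 * c, by unfold LL; ring⟩
  have h8 : ((-1 : ℚ)) ^ (s + c) = 1 := by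
    rw [pow_add, h6, ← pow_add, hc2]
    exact Even.neg_one_pow ⟨(2 * t + 3) * c, by unfold LL; ring⟩
  obtain ⟨d, hd⟩ := h7
  have h9 : d = 1 := by
    rcases d with _ | _ | d
    · omega
    · rfl
    · exfalso
      have : (2 * t + 3) * (d + 1 + 1) = (2 * t + 3) * d + 2 * (2 * t + 3) := by ring
      omega
  rw [hd, h9, mul_one, pow_add, pow_mul] at h8
  norm_num at h8

theorem Pi_inj (s : ℕ) (h1 : 1 ≤ s) (h2 : s < 2 * t + 3) (z : E t) (h : Pi' s z = 0) : z = 0 := by
  refine co_ext z fun a => ?_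
  have key : co a ∘ₗ Pi' s = kk s (vl a) • co a := by
    refine lext fun b hb => ?_
    rw [LinearMap.comp_apply, Pi', lift_in _ hb, map_smul, LinearMap.smul_apply, co_u]
    split_ifs with h3
    · rw [h3]
    · simp
  have h4 : co a (Pi' s z) = kk s (vl a) * co a z := LinearMap.congr_fun key z
  rw [h, map_zero] at h4
  exact (mul_eq_zero.1 h4.symm).resolve_left (kk_ne s h1 h2 (inb_vl a))

theorem dl_u (s : ℕ) (b : I t → ℕ) : ∀ a, sh 1 a = b → w s * u a - u b * w 0 = D1 s (u b) := by
  rintro a rfl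
  rw [D1_u, Dp, w, w, sum_mul, mul_sum]
  have h1 : ∑ j : I t, u (sh 1 a) * eta 0 j • u (e j) =
      ∑ j : I t, ((-1) ^ sh 1 a j * eta (deg (sh 1 a)) j * chi (e j) (sh 1 a)) •
        u (sh 1 a + e j) := by
    rw [← sum_sh (deg (sh 1 a) : I t) (fun j => ((-1) ^ sh 1 a j * eta (deg (sh 1 a)) j *
      chi (e j) (sh 1 a)) • u (sh 1 a + e j))]
    refine sum_congr rfl fun j _ => ?_
    rw [mul_smul_comm, u_mul, sh_e, smul_smul, eta_zero (deg (sh 1 a))]
    congr 1
    generalize j + (deg (sh 1 a) : I t) = l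
    have h2 := chi_comm l (sh 1 a)
    have h3 := chi_sq (e l) (sh 1 a)
    have h4 : ((-1 : ℚ)) ^ deg (sh 1 a) * (-1) ^ deg (sh 1 a) = 1 := by rw [← mul_pow]; simp
    linear_combination ((-1) ^ deg (sh 1 a) * eta (deg (sh 1 a)) l * chi (e l) (sh 1 a)) * h2
      - ((-1) ^ deg (sh 1 a) * eta (deg (sh 1 a)) l * chi (sh 1 a) (e l)) * h3
      + ((-1) ^ sh 1 a l * eta (deg (sh 1 a)) l * chi (e l) (sh 1 a)) * h4
  rw [h1, ← sum_sub_distrib]
  refine sum_congr rfl fun j _ => ?_
  rw [smul_mul_assoc, u_mul, deg_e, Nat.cast_one, smul_smul, add_comm (e j), ← sub_smul, dc, cf]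
  congr 1
  ring

theorem dl_eq (s : ℕ) (x : E t) : w s * x - al x * w 0 = D1 s (al x) := by
  induction x using E_ind with
  | h0 => simp
  | ha x x' h h' => simp only [map_add, mul_add, add_mul, ← h, ← h']; abel
  | hs c x h => simp only [map_smul, smul_mul_assoc, mul_smul_comm, ← h, smul_sub]
  | hu a _ => rw [al_u]; exact dl_u s _ a rfl

theorem al_D1 (s : ℕ) (x : E t) : al (D1 s x) = - D0 (s + 1) (al x) := by
  induction x using E_ind with
  | h0 => simp
  | ha x x' h h' => simp only [map_add, h, h', neg_add]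
  | hs c x h => simp only [map_smul, h, smul_neg]
  | hu b _ =>
    rw [al_u, D1_u, D0_u, Dp, Dp, map_sum, ← sum_neg_distrib, deg_sh,
      ← sum_sh 1 (fun j => -(dc (eta (s + 1)) (eta (deg b + 1)) (sh 1 b) j • u (sh 1 b + e j)))]
    refine sum_congr rfl fun j _ => ?_
    rw [map_smul, al_u, sh_add, sh_e, ← neg_smul, dc, dc, cf, cf, eta_succ, eta_succ, ← sh_e, chi_sh]
    congr 1
    simp only [sh, add_sub_cancel_right]
    ring

theorem exactM (i : ℕ) (hi : i < 2 * t + 2) (a : E t) (h : w (i + 1) * a - al a * w 0 = 0) :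
    ∃ b, a = w i * b - al b * w 0 := by
  have hD0 : ∀ y : E t, ∃ x, D0 (i + 1) y = al (w i * x - al x * w 0) := by
    intro y
    refine ⟨-(al.symm (al.symm y)), ?_⟩
    rw [dl_eq, al_D1]
    simp
  have hDD : ∀ y : E t, D1 (i + 1) (D0 (i + 1) y) = 0 := by
    intro y
    obtain ⟨x, hx⟩ := hD0 y
    rw [hx, ← dl_eq]
    have h1 : al (w i : E t) = - w (i + 1) := by rw [w_succ, neg_neg]
    have h2 : al (w 0 : E t) = - w (0 + 1) := by rw [w_succ, neg_neg]
    have h3 := W_norm x
    have h4 : (w (i + 1) : E t) * w i = W := w_w i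
    have h5 : (w (0 + 1) : E t) * w 0 = W := w_w 0
    have e1 : w (i + 1) * (w i * x - al x * w 0) - al (w i * x - al x * w 0) * w 0 =
        (w (i + 1) * w i) * x - al (al x) * (w (0 + 1) * w 0) := by
      rw [map_sub, map_mul, map_mul, h1, h2]
      noncomm_ring
    rw [e1, h4, h5, h3, sub_self]
  let K : Submodule ℚ (E t) := LinearMap.ker (D1 (i + 1))
  have hP : ∀ y ∈ K, Pi' (i + 1) y = D0 (i + 1) (H1 (i + 1) y) := by
    intro y hy
    have h1 := LinearMap.congr_fun (homot (t := t) (i + 1)) y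
    have h2 : D1 (i + 1) y = 0 := hy
    rw [← h1, LinearMap.add_apply, LinearMap.comp_apply, LinearMap.comp_apply, h2, map_zero, add_zero]
  let P : K →ₗ[ℚ] K := (Pi' (i + 1)).restrict (fun y hy => by
    rw [hP y hy]; exact hDD _)
  have hinj : Function.Injective P := by
    rw [injective_iff_map_eq_zero]
    intro y hy
    exact Subtype.ext (Pi_inj (i + 1) (by omega) (by omega) _ (congrArg Subtype.val hy))
  obtain ⟨y, hy⟩ := LinearMap.injective_iff_surjective.1 hinj ⟨al a, by
    rw [dl_eq] at h; exact h⟩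
  have h1 : Pi' (i + 1) y.1 = al a := congrArg Subtype.val hy
  obtain ⟨x, hx⟩ := hD0 (H1 (i + 1) y.1)
  rw [hP _ y.2, hx] at h1
  exact ⟨x, (al.injective h1).symm⟩

noncomputable def qdata (t : ℕ) : QData ℚ (E t) (2 * t + 2) where
  al := al
  W := W
  hW := al_W
  hWn := W_norm
  w := w
  r := 4 * t + 5
  hper := w_per
  hw := w_succ
  hww := w_w
  hM := exactM
  lam := co (top t)
  hlam := lam_nd
  F := F
  hF0 := F_zero
  hFmul := F_mul
  hFal := F_al
  top := (2 * t + 3) * LL t
  hFtop := F_top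
  hw1 := w_F
  h1 := one_F
  hdec := F_dec

end Pool.Agent.H.MP_1ef125_al
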